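import Pool.Agent.Lib.GradedTop.Final

/-!
# Topological graded ideal zeta functions of free nilpotent Lie rings of class three

For every `d`, the topological graded ideal zeta function of the free nilpotent Lie ring
`f_{3,d}` of class three on `d` generators is nonzero and has degree `-r` in `s`, where `r` is the
rank of `f_{3,d}`. No uniformity is assumed: `GradedTop.IsTop` is the general definition of Denef
type.
-/

namespace Pool.Agent.Results.MP_7f9cd3_al.ClassThree

theorem result (d : ℕ) (Z : RatFunc ℚ) (h : GradedTop.IsTop 3 d Z) :
    Z ≠ 0 ∧ Z.intDegree = -GradedTop.rk 3 d :=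
  GradedTop.class_three d Z h

end Pool.Agent.Results.MP_7f9cd3_al.ClassThree
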