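import Pool.Agent.Lib.GradedFlag.Final

/-!
# The leading coefficient of the topological graded ideal zeta functions

For all `c ≥ 1` and all `d`, the topological graded ideal zeta function `Z` of the free nilpotent
Lie ring `f_{c,d}` satisfies `s^r Z(s) → χ / r!` for `s → ∞`, where `r` is the rank of `f_{c,d}`
and the integer `χ` is the Euler characteristic of the variety of complete flags of graded ideals
of `f_{c,d}`: the number of complete flags of graded ideals of `f_{c,d}(F_q)`, `q = p^(k!)`, tends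
to `χ` in `ℚ_ℓ` for all large primes `p` and all `ℓ ≠ p`. So `Z` has degree at most `-r` if it is
nonzero, and `Z` is nonzero of degree `-r` if and only if `χ ≠ 0`. No uniformity is assumed: `GradedTop.IsTop` is the general definition of Denef
type.
-/

namespace Pool.Agent.Results.MP_7f9cd3_al.FlagLimit

open Filter Topology

theorem result (c d : ℕ) (hc : 1 ≤ c) (Z : RatFunc ℚ) (h : GradedTop.IsTop c d Z) :
    ∃ χ : ℤ, (∃ B : ℕ, ∀ (p : ℕ) [Fact p.Prime], B < p → ∀ (ℓ : ℕ) [Fact ℓ.Prime], ℓ ≠ p →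
        Tendsto (fun k : ℕ => (GradedTop.Flag.numFlags (GaloisField p k.factorial) c d
          (GradedTop.rk c d).toNat : ℚ_[ℓ])) atTop (𝓝 (χ : ℚ_[ℓ]))) ∧
      Tendsto (fun s : ℕ => (s : ℝ) ^ (GradedTop.rk c d).toNat *
        ((Z.eval (RingHom.id ℚ) (s : ℚ) : ℚ) : ℝ)) atTop
          (𝓝 ((χ : ℝ) / ((GradedTop.rk c d).toNat.factorial : ℝ))) ∧
      (Z ≠ 0 → Z.intDegree ≤ -GradedTop.rk c d) ∧
      (Z ≠ 0 ∧ Z.intDegree = -GradedTop.rk c d ↔ χ ≠ 0) := by
  obtain ⟨c, rfl⟩ := Nat.exists_eq_add_of_le hc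
  rw [add_comm] at h ⊢
  exact GradedTop.Flag.flag_limit_int c d Z h

end Pool.Agent.Results.MP_7f9cd3_al.FlagLimit
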