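import Pool.Agent.Lib.GradedPos.Final

/-!
# The degree of the topological graded ideal zeta functions for four further pairs `(c, d)`

For `(c, d)` one of `(5, 2)`, `(6, 2)`, `(7, 2)`, `(5, 3)`, every topological graded ideal zeta
function of the free nilpotent Lie ring `f_{c,d}` is nonzero and has degree `-r` in `s`, where `r`
is the rank of `f_{c,d}`. No uniformity is assumed: `GradedTop.IsTop` is the general definition of
Denef type.
-/

namespace Pool.Agent.Results.MP_7f9cd3_al.SmallCases

theorem result (c d : ℕ)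
    (h : (c = 5 ∧ d = 2) ∨ (c = 6 ∧ d = 2) ∨ (c = 7 ∧ d = 2) ∨ (c = 5 ∧ d = 3)) (Z : RatFunc ℚ)
    (hZ : GradedTop.IsTop c d Z) : Z ≠ 0 ∧ Z.intDegree = -GradedTop.rk c d :=
  GradedTop.Pos.small_cases c d h Z hZ

end Pool.Agent.Results.MP_7f9cd3_al.SmallCases
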